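import Pool.Agent.Helper36.RI.Goals

/-!
# Project RF (MP_c98eff_gt), existence part, packet ENB: the energy argument on the sphere
-/

set_option autoImplicit false

namespace Pool.Agent.Helper74.RI

open Set Filter Topology MeasureTheory Pool.Agent.Helper36.RS Pool.Agent.Helper36.RI
open Pool.Agent.Helper47.RF hiding ip
open scoped ContDiff

/-! ### the pointwise inequality -/

section real

variable {ν μ : Type} [Fintype ν] [Fintype μ]

theorem abs_sum_le {ι : Type} [Fintype ι] (f g : ι → ℝ) (h : ∀ i, |f i| ≤ g i) :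
    |∑ i, f i| ≤ ∑ i, g i :=
  (Finset.abs_sum_le_sum_abs _ _).trans (Finset.sum_le_sum fun i _ => h i)

theorem sq_l1 {ι : Type} [Fintype ι] (f : ι → ℝ) :
    (∑ i, |f i|) ^ 2 ≤ (Fintype.card ι : ℝ) * ∑ i, f i ^ 2 := by
  have h := sq_sum_le_card_mul_sum_sq (s := (Finset.univ : Finset ι)) (f := fun i => |f i|)
  simpa [sq_abs, Finset.card_univ] using h

/-- the constant in front of `s (s + g)` -/
noncomputable def CC (m : ℕ) (K : ℝ) : ℝ := 8 * K + 3 * K ^ 2 + 9 * K ^ 3 * m + 3 * K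

/-- the constant of the energy inequality -/
noncomputable def CE (p m : ℕ) (K : ℝ) : ℝ :=
  (CC m K + CC m K ^ 2 * (3 * m + 1) / 4) * (2 * (p + m))

theorem CC_nonneg (m : ℕ) {K : ℝ} (hK : 0 ≤ K) : 0 ≤ CC m K := by
  unfold CC; positivity

theorem CE_nonneg (p m : ℕ) {K : ℝ} (hK : 0 ≤ K) : 0 ≤ CE p m K := by
  have := CC_nonneg m hK
  unfold CE; positivity

theorem young_final {p m : ℕ} {K s g S2 G2 : ℝ} (hK : 0 ≤ K) (hs : 0 ≤ s) (hg : 0 ≤ g)
    (hS : s ^ 2 ≤ (2 * (p + m)) * S2) (hG : g ^ 2 ≤ (3 * m) * G2) (hG0 : 0 ≤ G2) :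
    -G2 + CC m K * (s * (s + g)) ≤ CE p m K * S2 := by
  have hC := CC_nonneg m hK
  set C := CC m K with hCdef
  have hm : (0 : ℝ) ≤ m := Nat.cast_nonneg m
  have hP : (0 : ℝ) < 3 * m + 1 := by positivity
  have h1 : C * (s * g) ≤ G2 + C ^ 2 * (3 * m + 1) / 4 * s ^ 2 := by
    have h2 : g ^ 2 / (3 * m + 1) ≤ G2 := by
      rw [div_le_iff₀ hP]
      nlinarith
    have h3 : C * (s * g) ≤ g ^ 2 / (3 * m + 1) + C ^ 2 * (3 * m + 1) / 4 * s ^ 2 := by
      have h4 : 0 ≤ (g - C * (3 * m + 1) / 2 * s) ^ 2 / (3 * m + 1) := by positivity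
      have h5 : (g - C * (3 * m + 1) / 2 * s) ^ 2 / (3 * m + 1)
          = g ^ 2 / (3 * m + 1) + C ^ 2 * (3 * m + 1) / 4 * s ^ 2 - C * (s * g) := by
        field_simp
        ring
      rw [h5] at h4
      linarith
    linarith
  have h6 : (C + C ^ 2 * (3 * m + 1) / 4) * s ^ 2
      ≤ (C + C ^ 2 * (3 * m + 1) / 4) * ((2 * (p + m)) * S2) :=
    mul_le_mul_of_nonneg_left hS (by positivity)
  have h7 : CE p m K * S2 = (C + C ^ 2 * (3 * m + 1) / 4) * ((2 * (p + m)) * S2) := by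
    unfold CE
    rw [hCdef]
    ring
  rw [h7]
  nlinarith

theorem real_ineq {K : ℝ} (hK : 0 ≤ K) (n n' : ν → ℝ) (b : μ → ℝ) (G : Fin 3 → μ → ℝ)
    (A θ : Fin 3 → Fin 3 → ℝ) (EA : Fin 3 → Fin 3 → ℝ) (Eb : Fin 3 → μ → ℝ)
    (c1 : ν → Fin 3 → μ → ℝ) (c2 : ν → ν → ℝ) (c3 : μ → Fin 3 → μ → ℝ)
    (c4 : μ → μ → ℝ) (c5 : μ → ν → ℝ) (c6 Ec6 : μ → Fin 3 → ν → ℝ)
    (c7 : Fin 3 → μ → μ → ℝ)
    (hn : ∀ i, n' i = ∑ a, ∑ j, c1 i a j * G a j + ∑ k, c2 i k * n k)
    (hG : ∀ a j, G a j = ∑ i, A a i * Eb i j + ∑ k, c7 a j k * b k)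
    (hθ : ∀ i j, ∑ a, θ i a * A a j = if i = j then 1 else 0)
    (bE : ∀ a i, |EA a i| ≤ K) (bθ : ∀ i a, |θ i a| ≤ K)
    (b1 : ∀ i a j, |c1 i a j| ≤ K) (b2 : ∀ i k, |c2 i k| ≤ K) (b3 : ∀ j a k, |c3 j a k| ≤ K)
    (b4 : ∀ j k, |c4 j k| ≤ K) (b5 : ∀ j k, |c5 j k| ≤ K) (b6 : ∀ j i k, |c6 j i k| ≤ K)
    (b6' : ∀ j i k, |Ec6 j i k| ≤ K) (b7 : ∀ a j k, |c7 a j k| ≤ K) :
    (∑ i, n i * n' i) + ∑ j, ((-∑ a, ∑ i, (b j * EA a i + A a i * Eb i j) * G a j)
      + b j * ((∑ a, ∑ k, c3 j a k * G a k) + (∑ k, c4 j k * b k) + ∑ k, c5 j k * n k)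
      - ∑ i, ∑ k, (b j * Ec6 j i k + c6 j i k * Eb i j) * n k)
    ≤ CE (Fintype.card ν) (Fintype.card μ) K * ((∑ i, n i ^ 2) + ∑ j, b j ^ 2) := by
  set nn : ℝ := ∑ i, |n i| with hnn
  set bb : ℝ := ∑ j, |b j| with hbb
  set g : ℝ := ∑ a, ∑ j, |G a j| with hg
  set s : ℝ := nn + bb with hs
  have nn0 : 0 ≤ nn := Finset.sum_nonneg fun _ _ => abs_nonneg _
  have bb0 : 0 ≤ bb := Finset.sum_nonneg fun _ _ => abs_nonneg _
  have g0 : 0 ≤ g := Finset.sum_nonneg fun _ _ => Finset.sum_nonneg fun _ _ => abs_nonneg _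
  have s0 : 0 ≤ s := by positivity
  have nns : nn ≤ s := by linarith
  have bbs : bb ≤ s := by linarith
  -- linear bounds
  have lG : ∀ c : Fin 3 → μ → ℝ, (∀ a k, |c a k| ≤ K) → |∑ a, ∑ k, c a k * G a k| ≤ K * g := by
    intro c hc
    refine (abs_sum_le _ (fun a => K * ∑ k, |G a k|) fun a => ?_).trans_eq ?_
    · refine (abs_sum_le _ (fun k => K * |G a k|) fun k => ?_).trans_eq ?_
      · rw [abs_mul]
        exact mul_le_mul_of_nonneg_right (hc a k) (abs_nonneg _)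
      · rw [Finset.mul_sum]
    · rw [hg, Finset.mul_sum]
  have lb : ∀ c : μ → ℝ, (∀ k, |c k| ≤ K) → |∑ k, c k * b k| ≤ K * bb := by
    intro c hc
    refine (abs_sum_le _ (fun k => K * |b k|) fun k => ?_).trans_eq ?_
    · rw [abs_mul]
      exact mul_le_mul_of_nonneg_right (hc k) (abs_nonneg _)
    · rw [hbb, Finset.mul_sum]
  have ln : ∀ c : ν → ℝ, (∀ k, |c k| ≤ K) → |∑ k, c k * n k| ≤ K * nn := by
    intro c hc
    refine (abs_sum_le _ (fun k => K * |n k|) fun k => ?_).trans_eq ?_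
    · rw [abs_mul]
      exact mul_le_mul_of_nonneg_right (hc k) (abs_nonneg _)
    · rw [hnn, Finset.mul_sum]
  -- first sum
  have t0 : ∑ i, n i * n' i ≤ K * (s * (s + g)) := by
    have h1 : ∀ i, |n' i| ≤ K * (s + g) := by
      intro i
      rw [hn i]
      have a1 := lG (c1 i) (b1 i)
      have a2 := ln (c2 i) (b2 i)
      have a3 := abs_add_le (∑ a, ∑ j, c1 i a j * G a j) (∑ k, c2 i k * n k)
      nlinarith
    calc ∑ i, n i * n' i ≤ |∑ i, n i * n' i| := le_abs_self _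
      _ ≤ ∑ i, |n i| * (K * (s + g)) := abs_sum_le _ _ fun i => by
          rw [abs_mul]
          exact mul_le_mul_of_nonneg_left (h1 i) (abs_nonneg _)
      _ = nn * (K * (s + g)) := by rw [← Finset.sum_mul]
      _ ≤ s * (K * (s + g)) := mul_le_mul_of_nonneg_right nns (by positivity)
      _ = K * (s * (s + g)) := by ring
  -- the gradient of b
  have hEb : ∀ i j, Eb i j = ∑ a, θ i a * (G a j - ∑ k, c7 a j k * b k) := by
    intro i j
    have h1 : ∀ a, G a j - ∑ k, c7 a j k * b k = ∑ l, A a l * Eb l j := by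
      intro a
      rw [hG a j]
      ring
    simp only [h1, Finset.mul_sum]
    rw [Finset.sum_comm]
    have h2 : ∀ l, ∑ a, θ i a * (A a l * Eb l j) = (if i = l then 1 else 0) * Eb l j := by
      intro l
      rw [← hθ i l, Finset.sum_mul]
      exact Finset.sum_congr rfl fun a _ => by ring
    rw [Finset.sum_congr rfl fun l _ => h2 l]
    simp
  have hEbb : ∀ i j, |Eb i j| ≤ K * (∑ a, |G a j|) + 3 * K ^ 2 * s := by
    intro i j
    rw [hEb i j]
    refine (abs_sum_le _ (fun a => K * |G a j| + K ^ 2 * s) fun a => ?_).trans_eq ?_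
    · rw [abs_mul]
      have a1 := lb (c7 a j) (b7 a j)
      have a2 : |G a j - ∑ k, c7 a j k * b k| ≤ |G a j| + K * s := by
        have a3 := abs_sub (G a j) (∑ k, c7 a j k * b k)
        nlinarith
      calc |θ i a| * |G a j - ∑ k, c7 a j k * b k| ≤ K * (|G a j| + K * s) :=
            mul_le_mul (bθ i a) a2 (abs_nonneg _) hK
        _ = K * |G a j| + K ^ 2 * s := by ring
    · rw [Finset.sum_add_distrib, ← Finset.mul_sum, Finset.sum_const, Finset.card_univ,
        Fintype.card_fin, nsmul_eq_mul]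
      push_cast
      ring
  -- main term
  have e1 : ∀ j, (∑ a, ∑ i, (b j * EA a i + A a i * Eb i j) * G a j)
      = (∑ a, (∑ i, EA a i) * (b j * G a j)) + (∑ a, G a j ^ 2)
        - ∑ a, (∑ k, c7 a j k * b k) * G a j := by
    intro j
    rw [← Finset.sum_add_distrib, ← Finset.sum_sub_distrib]
    refine Finset.sum_congr rfl fun a _ => ?_
    have h1 : ∑ i, A a i * Eb i j = G a j - ∑ k, c7 a j k * b k := by
      rw [hG a j]; ring
    have h2 : ∑ i, (b j * EA a i + A a i * Eb i j) * G a j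
        = (∑ i, EA a i) * (b j * G a j) + (∑ i, A a i * Eb i j) * G a j := by
      rw [Finset.sum_mul, Finset.sum_mul, ← Finset.sum_add_distrib]
      exact Finset.sum_congr rfl fun i _ => by ring
    rw [h2, h1]
    ring
  have q2 : |∑ j, ∑ a, (∑ i, EA a i) * (b j * G a j)| ≤ 3 * K * (s * g) := by
    have h1 : ∀ a, |∑ i, EA a i| ≤ 3 * K := by
      intro a
      refine (abs_sum_le _ (fun _ => K) fun i => bE a i).trans_eq ?_
      rw [Finset.sum_const, Finset.card_univ, Fintype.card_fin, nsmul_eq_mul]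
      norm_num
    have h2 : |∑ j, ∑ a, (∑ i, EA a i) * (b j * G a j)|
        ≤ ∑ j, ∑ a, (3 * K * bb) * |G a j| := by
      refine abs_sum_le _ _ fun j => abs_sum_le _ _ fun a => ?_
      rw [abs_mul, abs_mul]
      have h3 : |b j| ≤ bb := Finset.single_le_sum (f := fun j => |b j|)
        (fun _ _ => abs_nonneg _) (Finset.mem_univ j)
      calc |∑ i, EA a i| * (|b j| * |G a j|) ≤ (3 * K) * (bb * |G a j|) :=
            mul_le_mul (h1 a) (mul_le_mul_of_nonneg_right h3 (abs_nonneg _)) (by positivity)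
              (by positivity)
        _ = _ := by ring
    refine h2.trans ?_
    rw [Finset.sum_comm]
    simp only [← Finset.mul_sum]
    rw [← hg]
    have : 3 * K * bb * g ≤ 3 * K * s * g :=
      mul_le_mul_of_nonneg_right (mul_le_mul_of_nonneg_left bbs (by positivity)) g0
    linarith
  have q1 : |∑ j, ∑ a, (∑ k, c7 a j k * b k) * G a j| ≤ K * (s * g) := by
    have h2 : |∑ j, ∑ a, (∑ k, c7 a j k * b k) * G a j|
        ≤ ∑ j, ∑ a, (K * s) * |G a j| := by
      refine abs_sum_le _ _ fun j => abs_sum_le _ _ fun a => ?_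
      rw [abs_mul]
      apply mul_le_mul_of_nonneg_right _ (abs_nonneg _)
      exact (lb (c7 a j) (b7 a j)).trans (mul_le_mul_of_nonneg_left bbs hK)
    refine h2.trans ?_
    rw [Finset.sum_comm]
    simp only [← Finset.mul_sum]
    rw [← hg]
    linarith
  have q3 : ∑ j, b j * ((∑ a, ∑ k, c3 j a k * G a k) + (∑ k, c4 j k * b k) + ∑ k, c5 j k * n k)
      ≤ 2 * K * (s * (s + g)) := by
    have h1 : ∀ j, |(∑ a, ∑ k, c3 j a k * G a k) + (∑ k, c4 j k * b k) + ∑ k, c5 j k * n k|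
        ≤ 2 * K * (s + g) := by
      intro j
      have a1 := lG (c3 j) (b3 j)
      have a2 := lb (c4 j) (b4 j)
      have a3 := ln (c5 j) (b5 j)
      have a4 := abs_add_le (∑ a, ∑ k, c3 j a k * G a k) (∑ k, c4 j k * b k)
      have a5 := abs_add_le ((∑ a, ∑ k, c3 j a k * G a k) + (∑ k, c4 j k * b k))
        (∑ k, c5 j k * n k)
      have a6 : 0 ≤ K * g := by positivity
      have a7 : 0 ≤ K * s := by positivity
      have a8 : K * bb + K * nn = K * s := by rw [hs]; ring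
      linarith
    calc _ ≤ |∑ j, b j * ((∑ a, ∑ k, c3 j a k * G a k) + (∑ k, c4 j k * b k)
          + ∑ k, c5 j k * n k)| := le_abs_self _
      _ ≤ ∑ j, |b j| * (2 * K * (s + g)) := abs_sum_le _ _ fun j => by
          rw [abs_mul]
          exact mul_le_mul_of_nonneg_left (h1 j) (abs_nonneg _)
      _ = bb * (2 * K * (s + g)) := by rw [← Finset.sum_mul]
      _ ≤ s * (2 * K * (s + g)) := mul_le_mul_of_nonneg_right bbs (by positivity)
      _ = _ := by ring
  have q4 : |∑ j, ∑ i, ∑ k, (b j * Ec6 j i k + c6 j i k * Eb i j) * n k|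
      ≤ 3 * K * (s * s) + 3 * K ^ 2 * (s * g)
        + 9 * K ^ 3 * (Fintype.card μ) * (s * s) := by
    have h1 : |∑ j, ∑ i, ∑ k, (b j * Ec6 j i k + c6 j i k * Eb i j) * n k|
        ≤ ∑ j, ∑ _i : Fin 3, ((K * |b j| + K * (K * (∑ a, |G a j|) + 3 * K ^ 2 * s)) * nn) := by
      refine abs_sum_le _ _ fun j => abs_sum_le _ _ fun i => ?_
      rw [hnn, Finset.mul_sum]
      refine abs_sum_le _ _ fun k => ?_
      rw [abs_mul]
      apply mul_le_mul_of_nonneg_right _ (abs_nonneg _)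
      have a1 := abs_add_le (b j * Ec6 j i k) (c6 j i k * Eb i j)
      have a2 : |b j * Ec6 j i k| ≤ K * |b j| := by
        rw [abs_mul, mul_comm]
        exact mul_le_mul_of_nonneg_right (b6' j i k) (abs_nonneg _)
      have a3 : |c6 j i k * Eb i j| ≤ K * (K * (∑ a, |G a j|) + 3 * K ^ 2 * s) := by
        rw [abs_mul]
        exact mul_le_mul (b6 j i k) (hEbb i j) (abs_nonneg _) hK
      linarith
    refine h1.trans ?_
    have h2 : ∑ j, ∑ _i : Fin 3, ((K * |b j| + K * (K * (∑ a, |G a j|) + 3 * K ^ 2 * s)) * nn)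
        = 3 * nn * (K * bb + K ^ 2 * g + 3 * K ^ 3 * s * (Fintype.card μ)) := by
      simp only [Finset.sum_const, Finset.card_univ, Fintype.card_fin, nsmul_eq_mul]
      have h3 : ∀ j, (((3 : ℕ) : ℝ)) * ((K * |b j| + K * (K * (∑ a, |G a j|) + 3 * K ^ 2 * s)) * nn)
          = 3 * nn * (K * |b j|) + 3 * nn * K ^ 2 * (∑ a, |G a j|) + 3 * nn * (3 * K ^ 3 * s) := by
        intro j
        push_cast
        ring
      rw [Finset.sum_congr rfl fun j _ => h3 j, Finset.sum_add_distrib, Finset.sum_add_distrib,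
        ← Finset.mul_sum, ← Finset.mul_sum, ← Finset.mul_sum, Finset.sum_const, Finset.card_univ,
        nsmul_eq_mul, Finset.sum_comm]
      rw [← hg, ← hbb]
      ring
    rw [h2]
    have hcm : (0 : ℝ) ≤ (Fintype.card μ : ℝ) := Nat.cast_nonneg _
    have hin : K * bb + K ^ 2 * g + 3 * K ^ 3 * s * (Fintype.card μ)
        ≤ K * s + K ^ 2 * g + 3 * K ^ 3 * s * (Fintype.card μ) := by
      have := mul_le_mul_of_nonneg_left bbs hK
      linarith
    calc 3 * nn * (K * bb + K ^ 2 * g + 3 * K ^ 3 * s * (Fintype.card μ))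
        ≤ 3 * s * (K * s + K ^ 2 * g + 3 * K ^ 3 * s * (Fintype.card μ)) := by
          apply mul_le_mul _ hin (by positivity) (by positivity)
          linarith
      _ = _ := by ring
  -- assemble
  have hsum : ∑ j, ((-∑ a, ∑ i, (b j * EA a i + A a i * Eb i j) * G a j)
      + b j * ((∑ a, ∑ k, c3 j a k * G a k) + (∑ k, c4 j k * b k) + ∑ k, c5 j k * n k)
      - ∑ i, ∑ k, (b j * Ec6 j i k + c6 j i k * Eb i j) * n k)
      = -(∑ j, ∑ a, (∑ i, EA a i) * (b j * G a j)) - (∑ j, ∑ a, G a j ^ 2)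
        + (∑ j, ∑ a, (∑ k, c7 a j k * b k) * G a j)
        + (∑ j, b j * ((∑ a, ∑ k, c3 j a k * G a k) + (∑ k, c4 j k * b k)
            + ∑ k, c5 j k * n k))
        - ∑ j, ∑ i, ∑ k, (b j * Ec6 j i k + c6 j i k * Eb i j) * n k := by
    simp only [e1]
    simp only [Finset.sum_add_distrib, Finset.sum_sub_distrib, Finset.sum_neg_distrib]
    ring
  rw [hsum]
  have G2 : ∑ j, ∑ a, G a j ^ 2 = ∑ p : Fin 3 × μ, G p.1 p.2 ^ 2 := by
    rw [Fintype.sum_prod_type, Finset.sum_comm]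
  have g2 : g = ∑ p : Fin 3 × μ, |G p.1 p.2| := by
    rw [Fintype.sum_prod_type]
  have hGG : g ^ 2 ≤ (3 * (Fintype.card μ : ℝ)) * ∑ j, ∑ a, G a j ^ 2 := by
    rw [G2, g2]
    have := sq_l1 (fun p : Fin 3 × μ => G p.1 p.2)
    rw [Fintype.card_prod, Fintype.card_fin] at this
    push_cast at this
    exact this
  have hSS : s ^ 2 ≤ (2 * ((Fintype.card ν : ℝ) + (Fintype.card μ : ℝ)))
      * ((∑ i, n i ^ 2) + ∑ j, b j ^ 2) := by
    have a1 := sq_l1 n
    have a2 := sq_l1 b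
    have a3 : s ^ 2 ≤ 2 * (nn ^ 2 + bb ^ 2) := by
      rw [hs]
      nlinarith [sq_nonneg (nn - bb)]
    have a4 : 0 ≤ ∑ i, n i ^ 2 := Finset.sum_nonneg fun _ _ => sq_nonneg _
    have a5 : 0 ≤ ∑ j, b j ^ 2 := Finset.sum_nonneg fun _ _ => sq_nonneg _
    have a6 : (0 : ℝ) ≤ (Fintype.card ν : ℝ) := Nat.cast_nonneg _
    have a7 : (0 : ℝ) ≤ (Fintype.card μ : ℝ) := Nat.cast_nonneg _
    nlinarith [mul_nonneg a6 a5, mul_nonneg a7 a4]
  have hG20 : 0 ≤ ∑ j, ∑ a, G a j ^ 2 :=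
    Finset.sum_nonneg fun _ _ => Finset.sum_nonneg fun _ _ => sq_nonneg _
  have hfin := young_final (p := Fintype.card ν) (m := Fintype.card μ) hK s0 g0 hSS hGG hG20
  refine le_trans ?_ hfin
  rw [abs_le] at q1 q2 q4
  have hcm : (0 : ℝ) ≤ (Fintype.card μ : ℝ) := Nat.cast_nonneg _
  have z1 : 0 ≤ K * (s * g) := by positivity
  have z2 : 0 ≤ K * (s * s) := by positivity
  have z3 : 0 ≤ K ^ 2 * (s * s) := by positivity
  have z4 : 0 ≤ K ^ 3 * (Fintype.card μ) * (s * g) := by positivity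
  unfold CC
  nlinarith [q1.1, q1.2, q2.1, q2.2, q3, q4.1, q4.2, t0, z1, z2, z3, z4]

end real

/-! ### integrals of elements of `XS` -/

theorem ne_zero_ae : ∀ᵐ z ∂(volume.restrict (Metric.ball (0 : HH) 1)), z ≠ 0 := by
  apply ae_restrict_of_ae
  exact compl_mem_ae_iff.2 (measure_singleton (0 : HH))

theorem int_mono {f g : XS} (h : ∀ x ≠ 0, f.1 x ≤ g.1 x) : ip 1 f ≤ ip 1 g := by
  rw [ip_apply, ip_apply, integ, integ]
  refine mul_le_mul_of_nonneg_left ?_ (by norm_num)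
  refine integral_mono_ae (integrable_val (1 * f)) (integrable_val (1 * g)) ?_
  filter_upwards [ne_zero_ae] with z hz
  have h1 : ((1 : XS)).1 z = 1 := rfl
  change (1 : XS).1 z * f.1 z ≤ (1 : XS).1 z * g.1 z
  rw [h1, one_mul, one_mul]
  exact h z hz

theorem int_congr {f g : XS} (h : ∀ x ≠ 0, f.1 x = g.1 x) : ip 1 f = ip 1 g :=
  le_antisymm (int_mono fun x hx => (h x hx).le) (int_mono fun x hx => (h x hx).ge)

theorem ip_mul (u v : XS) : ip u v = ip 1 (u * v) := by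
  rw [ip_apply, ip_apply]
  congr 1
  funext x
  have h1 : ((1 : XS)).1 x = 1 := rfl
  rw [h1, one_mul]
  rfl

/-- evaluation at a point -/
def evx (x : HH) : XS →+* ℝ := (Pi.evalRingHom (fun _ : HH => ℝ) x).comp XS.subtype

theorem evx_apply (x : HH) (f : XS) : evx x f = f.1 x := rfl

theorem val_mul (u v : XS) (x : HH) : (u * v).1 x = u.1 x * v.1 x := rfl

theorem val_add (u v : XS) (x : HH) : (u + v).1 x = u.1 x + v.1 x := rfl

theorem val_neg (u : XS) (x : HH) : (-u).1 x = -u.1 x := rfl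

theorem val_sub (u v : XS) (x : HH) : (u - v).1 x = u.1 x - v.1 x := rfl

theorem val_sum {ι : Type} (s : Finset ι) (u : ι → XS) (x : HH) :
    (∑ i ∈ s, u i).1 x = ∑ i ∈ s, (u i).1 x := by
  have h := map_sum (evx x) u s
  exact h

theorem sm_bdd (u : XS) : ∃ C, 0 ≤ C ∧ ∀ x, x ≠ 0 → |u.1 x| ≤ C := by
  obtain ⟨C, hC⟩ := c4.1 u.1 u.2
  refine ⟨abs (C + |u.1 0|), abs_nonneg _, fun x _ => (hC x).trans (le_abs_self _)⟩

/-- a smooth function with zero square integral vanishes -/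
theorem eq_zero_of_ip (u : XS) (h : ip u u = 0) : ∀ x ≠ 0, u.1 x = 0 := by
  have hcont : ContinuousOn u.1 {0}ᶜ := u.2.cd.continuousOn
  rw [ip_apply, integ] at h
  have h1 : ∫ x in Metric.ball (0 : HH) 1, u.1 x * u.1 x = 0 := by linarith
  have hint : IntegrableOn (fun x => u.1 x * u.1 x) (Metric.ball (0 : HH) 1) :=
    integrable_val (u * u)
  have h2 : (fun x => u.1 x * u.1 x) =ᵐ[volume.restrict (Metric.ball (0 : HH) 1)] 0 :=
    (integral_eq_zero_iff_of_nonneg (fun x => mul_self_nonneg _) hint).1 h1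
  set V : Set HH := (Metric.ball (0 : HH) 1) ∩ ({0}ᶜ ∩ u.1 ⁻¹' {0}ᶜ) with hV
  have hVo : IsOpen V := by
    refine Metric.isOpen_ball.inter ?_
    exact hcont.isOpen_inter_preimage isOpen_compl_singleton isOpen_compl_singleton
  have hVn : volume V = 0 := by
    have h3 : ∀ᵐ x ∂(volume : Measure HH), x ∈ Metric.ball (0 : HH) 1 →
        u.1 x * u.1 x = 0 := (ae_restrict_iff' measurableSet_ball).1 h2
    refine measure_mono_null (fun x hx => ?_) (ae_iff.1 h3)
    intro hcon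
    have h4 := hcon hx.1
    exact hx.2.2 (mul_self_eq_zero.1 h4)
  have hVe : V = ∅ := (hVo.measure_eq_zero_iff volume).1 hVn
  intro x hx
  by_contra hne
  have hn : 0 < ‖x‖ := norm_pos_iff.2 hx
  set r : ℝ := (2 * ‖x‖)⁻¹ with hr
  have hr0 : 0 < r := by positivity
  have hmem : r • x ∈ V := by
    refine ⟨?_, ?_, ?_⟩
    · rw [mem_ball_zero_iff, norm_smul, Real.norm_eq_abs, abs_of_pos hr0, hr]
      have : (2 * ‖x‖)⁻¹ * ‖x‖ = 1 / 2 := by field_simp
      rw [this]
      norm_num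
    · exact smul_ne_zero hr0.ne' hx
    · change u.1 (r • x) ∈ ({0}ᶜ : Set ℝ)
      rw [u.2.hom r x hr0]
      exact hne
  rw [hVe] at hmem
  exact hmem

/-- uniform bound on compact time intervals -/
theorem loc_bdd {τ : ℝ} (u : ℝ → XS)
    (hu : ContinuousOn (fun p : ℝ × HH => (u p.1).1 p.2) (Ioo 0 τ ×ˢ {0}ᶜ)) {t1 t2 : ℝ}
    (h1 : 0 < t1) (h2 : t2 < τ) :
    ∃ C, 0 ≤ C ∧ ∀ t ∈ Icc t1 t2, ∀ x ≠ 0, |(u t).1 x| ≤ C := by
  have hc : IsCompact (Icc t1 t2 ×ˢ Metric.sphere (0 : HH) 1) :=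
    isCompact_Icc.prod (isCompact_sphere _ _)
  have hcont : ContinuousOn (fun p : ℝ × HH => |(u p.1).1 p.2|)
      (Icc t1 t2 ×ˢ Metric.sphere (0 : HH) 1) := by
    refine (hu.mono ?_).abs
    rintro ⟨t, x⟩ ⟨ht, hx⟩
    refine ⟨⟨lt_of_lt_of_le h1 ht.1, lt_of_le_of_lt ht.2 h2⟩, ?_⟩
    intro h0
    have h3 : x = 0 := h0
    have h4 : ‖x‖ = 1 := mem_sphere_zero_iff_norm.1 hx
    rw [h3, norm_zero] at h4
    exact zero_ne_one h4
  obtain ⟨C, hC⟩ := hc.bddAbove_image hcont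
  refine ⟨max C 0, le_max_right _ _, fun t ht x hx => ?_⟩
  have hn : 0 < ‖x‖ := norm_pos_iff.2 hx
  have h3 : (u t).1 (‖x‖⁻¹ • x) = (u t).1 x := (u t).2.hom _ _ (inv_pos.2 hn)
  rw [← h3]
  refine (hC ⟨(t, ‖x‖⁻¹ • x), ⟨ht, ?_⟩, rfl⟩).trans (le_max_left _ _)
  rw [mem_sphere_zero_iff_norm, norm_smul, norm_inv, norm_norm, inv_mul_cancel₀ hn.ne']

/-- differentiation under the integral -/
theorem dip {τ : ℝ} (u u' : ℝ → XS)
    (hu : ContinuousOn (fun p : ℝ × HH => (u p.1).1 p.2) (Ioo 0 τ ×ˢ {0}ᶜ))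
    (hu' : ContinuousOn (fun p : ℝ × HH => (u' p.1).1 p.2) (Ioo 0 τ ×ˢ {0}ᶜ))
    (hd : ∀ t ∈ Ioo 0 τ, ∀ x ≠ 0, HasDerivAt (fun s => (u s).1 x) ((u' t).1 x) t)
    {t : ℝ} (ht : t ∈ Ioo 0 τ) :
    HasDerivAt (fun s => ip (u s) (u s)) (2 * ip (u t) (u' t)) t := by
  have ht0 := ht.1
  have htτ := ht.2
  obtain ⟨C, hC0, hC⟩ := loc_bdd u hu (t1 := t / 2) (t2 := (t + τ) / 2) (by linarith)
    (by linarith)
  obtain ⟨D, hD0, hD⟩ := loc_bdd u' hu' (t1 := t / 2) (t2 := (t + τ) / 2) (by linarith)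
    (by linarith)
  have hnhd : Icc (t / 2) ((t + τ) / 2) ∈ 𝓝 t := Icc_mem_nhds (by linarith) (by linarith)
  have hsub : Icc (t / 2) ((t + τ) / 2) ⊆ Ioo 0 τ := fun s hs =>
    ⟨by linarith [hs.1], by linarith [hs.2]⟩
  have key := hasDerivAt_integral_of_dominated_loc_of_deriv_le
    (μ := volume.restrict (Metric.ball (0 : HH) 1)) (F := fun s x => (u s).1 x * (u s).1 x)
    (F' := fun s x => (u' s).1 x * (u s).1 x + (u s).1 x * (u' s).1 x) (x₀ := t)
    (s := Icc (t / 2) ((t + τ) / 2)) (bound := fun _ => 2 * (C * D))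
    hnhd (Filter.Eventually.of_forall fun s => (integrable_val (u s * u s)).aestronglyMeasurable)
    (integrable_val (u t * u t))
    (integrable_val (u' t * u t + u t * u' t)).aestronglyMeasurable
    (by
      filter_upwards [ne_zero_ae] with x hx
      intro s hs
      rw [Real.norm_eq_abs]
      have a1 := hC s hs x hx
      have a2 := hD s hs x hx
      have a3 := abs_add_le ((u' s).1 x * (u s).1 x) ((u s).1 x * (u' s).1 x)
      rw [abs_mul, abs_mul] at a3
      have a4 : |(u s).1 x| * |(u' s).1 x| ≤ C * D :=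
        mul_le_mul a1 a2 (abs_nonneg _) hC0
      linarith [mul_comm |(u' s).1 x| |(u s).1 x|])
    (integrableOn_const (measure_ball_lt_top (μ := (volume : Measure HH))).ne)
    (by
      filter_upwards [ne_zero_ae] with x hx
      intro s hs
      have h1 := hd s (hsub hs) x hx
      exact h1.mul h1)
  have h2 := key.2.const_mul 4
  have h3 : (4 : ℝ) * ∫ x in Metric.ball (0 : HH) 1, ((u' t).1 x * (u t).1 x
      + (u t).1 x * (u' t).1 x) = 2 * ip (u t) (u' t) := by
    rw [ip_apply, integ]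
    have h4 : (fun x => (u' t).1 x * (u t).1 x + (u t).1 x * (u' t).1 x)
        = fun x => 2 * ((u t).1 x * (u' t).1 x) := by
      funext x; ring
    rw [h4, integral_const_mul]
    ring
  rw [h3] at h2
  exact h2

theorem ip_le_of_bdd (u : XS) (δ : ℝ) (h : ∀ x ≠ 0, |u.1 x| ≤ δ) :
    ip u u ≤ δ ^ 2 * ip 1 1 := by
  have h1 : ip u u = ip 1 (u * u) := ip_mul u u
  have h2 : δ ^ 2 * ip (1 : XS) 1 = ip 1 ((δ ^ 2) • (1 : XS)) := by
    rw [map_smul, smul_eq_mul]
  rw [h1, h2]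
  refine int_mono fun x hx => ?_
  have h3 := h x hx
  have h4 : (((δ ^ 2) • (1 : XS)) : XS).1 x = δ ^ 2 * 1 := rfl
  rw [h4, val_mul, mul_one, ← pow_two, ← sq_abs]
  exact pow_le_pow_left₀ (abs_nonneg _) h3 2

/-- Gronwall -/
theorem gron {τ c : ℝ} (e e' : ℝ → ℝ) (he : ∀ t ∈ Ioo 0 τ, HasDerivAt e (e' t) t)
    (hle : ∀ t ∈ Ioo 0 τ, e' t ≤ c * e t) (hc : 0 ≤ c) (h0 : ∀ t ∈ Ioo 0 τ, 0 ≤ e t)
    (hlim : ∀ ε > 0, ∃ η > 0, ∀ t ∈ Ioo 0 τ, t < η → e t ≤ ε) :
    ∀ t ∈ Ioo 0 τ, e t = 0 := by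
  have hder : ∀ t ∈ Ioo 0 τ, HasDerivAt (fun s => e s * Real.exp (-(c * s)))
      (e' t * Real.exp (-(c * t)) + e t * (Real.exp (-(c * t)) * (-(c * 1)))) t := by
    intro t ht
    have h1 : HasDerivAt (fun s : ℝ => Real.exp (-(c * s))) (Real.exp (-(c * t)) * (-(c * 1))) t :=
      (((hasDerivAt_id t).const_mul c).neg).exp
    exact (he t ht).mul h1
  have hanti : AntitoneOn (fun s => e s * Real.exp (-(c * s))) (Ioo 0 τ) := by
    refine antitoneOn_of_deriv_nonpos (convex_Ioo 0 τ)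
      (fun t ht => (hder t ht).continuousAt.continuousWithinAt) ?_ ?_
    · rw [interior_Ioo]
      exact fun t ht => (hder t ht).differentiableAt.differentiableWithinAt
    · rw [interior_Ioo]
      intro t ht
      rw [(hder t ht).deriv]
      have h1 := hle t ht
      have h2 := Real.exp_pos (-(c * t))
      nlinarith
  intro t ht
  apply le_antisymm _ (h0 t ht)
  have hpos := Real.exp_pos (-(c * t))
  have hmain : e t * Real.exp (-(c * t)) ≤ 0 := by
    apply le_of_forall_pos_le_add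
    intro ε hε
    obtain ⟨η, hη, hh⟩ := hlim ε hε
    set s : ℝ := min (t / 2) (η / 2) with hs
    have hs0 : 0 < s := lt_min (by linarith [ht.1]) (by linarith)
    have hst : s ≤ t := (min_le_left _ _).trans (by linarith [ht.1])
    have hsη : s < η := lt_of_le_of_lt (min_le_right _ _) (by linarith)
    have hsI : s ∈ Ioo 0 τ := ⟨hs0, lt_of_le_of_lt hst ht.2⟩
    have h1 := hanti hsI ht hst
    have h2 := hh s hsI hsη
    have h3 : Real.exp (-(c * s)) ≤ 1 := by
      rw [← Real.exp_zero]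
      apply Real.exp_le_exp.2
      have : 0 ≤ c * s := by positivity
      linarith
    have h4 : e s * Real.exp (-(c * s)) ≤ e s * 1 := mul_le_mul_of_nonneg_left h3 (h0 s hsI)
    simp only at h1
    linarith
  by_contra hcon
  push Not at hcon
  have := mul_pos hcon hpos
  linarith

/-- PACKET ENB -/
theorem enb : G_ENB := by
  intro ν μ _ _ τ K n n' b b' G A θ c1 c2 c3 c4 c5 c6 c7 hn hn' hb hb' dn db heq hlim
  -- the energy
  set e : ℝ → ℝ := fun t => (∑ i, ip (n i t) (n i t)) + ∑ j, ip (b j t) (b j t) with he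
  set e' : ℝ → ℝ := fun t => (∑ i, 2 * ip (n i t) (n' i t)) + ∑ j, 2 * ip (b j t) (b' j t)
    with he'
  have hder : ∀ t ∈ Ioo 0 τ, HasDerivAt e (e' t) t := by
    intro t ht
    have h1 : HasDerivAt (fun t => ∑ i, ip (n i t) (n i t)) (∑ i, 2 * ip (n i t) (n' i t)) t :=
      HasDerivAt.fun_sum fun i _ => dip (n i) (n' i) (hn i) (hn' i) (dn i) ht
    have h2 : HasDerivAt (fun t => ∑ j, ip (b j t) (b j t)) (∑ j, 2 * ip (b j t) (b' j t)) t :=
      HasDerivAt.fun_sum fun j _ => dip (b j) (b' j) (hb j) (hb' j) (db j) ht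
    exact h1.add h2
  have hnn : ∀ t ∈ Ioo 0 τ, 0 ≤ e t := fun t _ =>
    add_nonneg (Finset.sum_nonneg fun _ _ => ip_nonneg _) (Finset.sum_nonneg fun _ _ => ip_nonneg _)
  -- the energy inequality
  have hle : ∀ t ∈ Ioo 0 τ,
      e' t ≤ (2 * CE (Fintype.card ν) (Fintype.card μ) (max K 0)) * e t := by
    intro t ht
    have hK0 : 0 ≤ max K 0 := le_max_right _ _
    -- the element B_j
    set B : μ → XS := fun j => (∑ a, ∑ i, A a i t * Ed i (G a j t))
      + ((∑ a, ∑ k, c3 j a k t * G a k t) + (∑ k, c4 j k t * b k t) + ∑ k, c5 j k t * n k t)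
      + ∑ i, ∑ k, c6 j i k t * Ed i (n k t) with hB
    set R : μ → XS := fun j => (-∑ a, ∑ i, Ed i (b j t * A a i t) * G a j t)
      + b j t * ((∑ a, ∑ k, c3 j a k t * G a k t) + (∑ k, c4 j k t * b k t)
        + ∑ k, c5 j k t * n k t)
      - ∑ i, ∑ k, Ed i (b j t * c6 j i k t) * n k t with hR
    have h1 : ∀ j, ip (b j t) (b' j t) = ip 1 (R j) := by
      intro j
      have a1 : ip (b j t) (b' j t) = ip 1 (b j t * B j) := by
        rw [ip_mul]
        refine int_congr fun x hx => ?_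
        rw [val_mul, val_mul]
        congr 1
        have h2 := (heq t ht x hx).2.1 j
        rw [h2]
        simp only [hB, val_add, val_sum, val_mul, Ed_apply]
        ring
      have a2 : ip 1 (b j t * B j) = (∑ a, ∑ i, ip (b j t * A a i t) (Ed i (G a j t)))
          + ip 1 (b j t * ((∑ a, ∑ k, c3 j a k t * G a k t) + (∑ k, c4 j k t * b k t)
            + ∑ k, c5 j k t * n k t))
          + ∑ i, ∑ k, ip (b j t * c6 j i k t) (Ed i (n k t)) := by
        have a3 : b j t * B j = (∑ a, ∑ i, (b j t * A a i t) * Ed i (G a j t))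
            + b j t * ((∑ a, ∑ k, c3 j a k t * G a k t) + (∑ k, c4 j k t * b k t)
              + ∑ k, c5 j k t * n k t)
            + ∑ i, ∑ k, (b j t * c6 j i k t) * Ed i (n k t) := by
          simp only [hB, mul_add, Finset.mul_sum, mul_assoc]
        rw [a3, map_add, map_add, map_sum, map_sum]
        congr 1
        · congr 1
          refine Finset.sum_congr rfl fun a _ => ?_
          rw [map_sum]
          exact Finset.sum_congr rfl fun i _ => (ip_mul _ _).symm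
        · refine Finset.sum_congr rfl fun i _ => ?_
          rw [map_sum]
          exact Finset.sum_congr rfl fun k _ => (ip_mul _ _).symm
      have a4 : ∀ (i : Fin 3) (u v : XS), ip u (Ed i v) = -ip (Ed i u) v := by
        intro i u v
        rw [ibp i u v, neg_neg]
      rw [a1, a2]
      simp only [a4]
      have a5 : ip 1 (R j) = -(∑ a, ∑ i, ip 1 (Ed i (b j t * A a i t) * G a j t))
          + ip 1 (b j t * ((∑ a, ∑ k, c3 j a k t * G a k t) + (∑ k, c4 j k t * b k t)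
            + ∑ k, c5 j k t * n k t))
          - ∑ i, ∑ k, ip 1 (Ed i (b j t * c6 j i k t) * n k t) := by
        simp only [hR]
        rw [map_sub, map_add, map_neg, map_sum, map_sum]
        congr 1
        · congr 1
          congr 1
          exact Finset.sum_congr rfl fun a _ => map_sum _ _ _
        · exact Finset.sum_congr rfl fun i _ => map_sum _ _ _
      rw [a5]
      simp only [ip_mul (Ed _ _) _, Finset.sum_neg_distrib]
      ring
    have h2 : (∑ i, ip (n i t) (n' i t)) + ∑ j, ip (b j t) (b' j t)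
        = ip 1 ((∑ i, n i t * n' i t) + ∑ j, R j) := by
      rw [map_add, map_sum, map_sum]
      congr 1
      · exact Finset.sum_congr rfl fun i _ => ip_mul _ _
      · exact Finset.sum_congr rfl fun j _ => h1 j
    have h3 : (∑ i, ip (n i t) (n i t)) + ∑ j, ip (b j t) (b j t)
        = ip 1 ((∑ i, n i t * n i t) + ∑ j, b j t * b j t) := by
      rw [map_add, map_sum, map_sum]
      congr 1
      · exact Finset.sum_congr rfl fun i _ => ip_mul _ _
      · exact Finset.sum_congr rfl fun j _ => ip_mul _ _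
    have h4 : ip 1 ((∑ i, n i t * n' i t) + ∑ j, R j)
        ≤ ip 1 ((CE (Fintype.card ν) (Fintype.card μ) (max K 0)) •
          ((∑ i, n i t * n i t) + ∑ j, b j t * b j t)) := by
      refine int_mono fun x hx => ?_
      obtain ⟨q1, q2, q3, q4, q5, q6, q7, q8, q9, q10, q11, q12⟩ := heq t ht x hx
      have hKm : ∀ {y : ℝ}, |y| ≤ K → |y| ≤ max K 0 := fun h => h.trans (le_max_left _ _)
      have hv : (((CE (Fintype.card ν) (Fintype.card μ) (max K 0)) •
          ((∑ i, n i t * n i t) + ∑ j, b j t * b j t)) : XS).1 x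
          = CE (Fintype.card ν) (Fintype.card μ) (max K 0) *
            ((∑ i, n i t * n i t) + ∑ j, b j t * b j t : XS).1 x := rfl
      rw [hv]
      have hr := real_ineq hK0 (fun i => (n i t).1 x) (fun i => (n' i t).1 x)
        (fun j => (b j t).1 x) (fun a j => (G a j t).1 x) (fun a i => (A a i t).1 x)
        (fun i a => (θ i a t).1 x) (fun a i => E i (A a i t).1 x) (fun i j => E i (b j t).1 x)
        (fun i a j => (c1 i a j t).1 x) (fun i k => (c2 i k t).1 x)
        (fun j a k => (c3 j a k t).1 x) (fun j k => (c4 j k t).1 x) (fun j k => (c5 j k t).1 x)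
        (fun j i k => (c6 j i k t).1 x) (fun j i k => E i (c6 j i k t).1 x)
        (fun a j k => (c7 a j k t).1 x) q1 q3 q4
        (fun a i => hKm (q5 a i i).2.1) (fun i a => hKm (q5 a i i).2.2)
        (fun i a j => hKm (q6 i a j)) (fun i k => hKm (q7 i k)) (fun j a k => hKm (q8 j a k))
        (fun j k => hKm (q9 j k)) (fun j k => hKm (q10 j k))
        (fun j i k => hKm (q11 j i k i).1) (fun j i k => hKm (q11 j i k i).2)
        (fun a j k => hKm (q12 a j k))
      have hlv : ∀ (i : Fin 3) (u v : XS), (Ed i (u * v)).1 x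
          = u.1 x * E i v.1 x + v.1 x * E i u.1 x := by
        intro i u v
        rw [Derivation.leibniz, smul_eq_mul, smul_eq_mul, val_add, val_mul, val_mul, Ed_apply,
          Ed_apply]
      simp only [hR, val_add, val_sub, val_neg, val_sum, val_mul, hlv]
      simp only [pow_two] at hr
      exact hr
    have h5 : ip 1 ((CE (Fintype.card ν) (Fintype.card μ) (max K 0)) •
          ((∑ i, n i t * n i t) + ∑ j, b j t * b j t))
        = CE (Fintype.card ν) (Fintype.card μ) (max K 0) *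
          ip 1 ((∑ i, n i t * n i t) + ∑ j, b j t * b j t) := by
      rw [map_smul, smul_eq_mul]
    rw [h5, ← h2, ← h3] at h4
    have h6 : e' t = 2 * ((∑ i, ip (n i t) (n' i t)) + ∑ j, ip (b j t) (b' j t)) := by
      simp only [he', ← Finset.mul_sum]
      ring
    rw [h6]
    simp only [he]
    linarith
  -- the limit at time zero
  have hlim0 : ∀ ε > 0, ∃ η > 0, ∀ t ∈ Ioo 0 τ, t < η → e t ≤ ε := by
    intro ε hε
    have hI : 0 ≤ ip (1 : XS) 1 := ip_nonneg 1
    set M : ℝ := ((Fintype.card ν : ℝ) + (Fintype.card μ : ℝ)) * ip (1 : XS) 1 + 1 with hM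
    have hM0 : 0 < M := by positivity
    obtain ⟨η, hη, hh⟩ := hlim (min 1 (ε / M)) (lt_min one_pos (by positivity))
    refine ⟨η, hη, fun t ht htη => ?_⟩
    set δ : ℝ := min 1 (ε / M) with hδ
    have hδ0 : 0 < δ := lt_min one_pos (by positivity)
    have hδ1 : δ ≤ 1 := min_le_left _ _
    have hδ2 : δ ≤ ε / M := min_le_right _ _
    have a1 : ∑ i, ip (n i t) (n i t) ≤ ∑ _i : ν, δ ^ 2 * ip (1 : XS) 1 :=
      Finset.sum_le_sum fun i _ => ip_le_of_bdd _ _ fun x hx => (hh t ht htη x hx).1 i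
    have a2 : ∑ j, ip (b j t) (b j t) ≤ ∑ _j : μ, δ ^ 2 * ip (1 : XS) 1 :=
      Finset.sum_le_sum fun j _ => ip_le_of_bdd _ _ fun x hx => (hh t ht htη x hx).2 j
    rw [Finset.sum_const, Finset.card_univ, nsmul_eq_mul] at a1 a2
    have a3 : e t ≤ δ ^ 2 * M := by
      simp only [he, hM]
      nlinarith [sq_nonneg δ]
    have a4 : δ ^ 2 * M ≤ δ * M := by
      apply mul_le_mul_of_nonneg_right _ hM0.le
      nlinarith
    have a5 : δ * M ≤ ε := by
      calc δ * M ≤ ε / M * M := mul_le_mul_of_nonneg_right hδ2 hM0.le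
        _ = ε := by field_simp
    linarith
  have hc0 : 0 ≤ 2 * CE (Fintype.card ν) (Fintype.card μ) (max K 0) :=
    mul_nonneg (by norm_num) (CE_nonneg _ _ (le_max_right _ _))
  have hzero := gron e e' hder hle hc0 hnn hlim0
  intro t ht x hx
  have h1 := hzero t ht
  simp only [he] at h1
  have h2 : 0 ≤ ∑ i, ip (n i t) (n i t) := Finset.sum_nonneg fun _ _ => ip_nonneg _
  have h3 : 0 ≤ ∑ j, ip (b j t) (b j t) := Finset.sum_nonneg fun _ _ => ip_nonneg _
  have h4 : ∑ i, ip (n i t) (n i t) = 0 := by linarith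
  have h5 : ∑ j, ip (b j t) (b j t) = 0 := by linarith
  constructor
  · intro i
    have h6 := (Finset.sum_eq_zero_iff_of_nonneg fun i _ => ip_nonneg _).1 h4 i
      (Finset.mem_univ i)
    exact eq_zero_of_ip _ h6 x hx
  · intro j
    have h6 := (Finset.sum_eq_zero_iff_of_nonneg fun i _ => ip_nonneg _).1 h5 j
      (Finset.mem_univ j)
    exact eq_zero_of_ip _ h6 x hx

end Pool.Agent.Helper74.RI
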